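import Pool.Agent.K1H72.CD.Stm

/-! Assembly of project CD, without the four-arm exponent. -/

set_option autoImplicit false

namespace Pool.Agent.K1H72.CD

open H974 H12S Finset MeasureTheory

theorem okh : Ok (fun _ : Edg => (1/2 : ℝ)) := okq (by norm_num) (by norm_num)

theorem excl (hB : S_BLK) {m : ℕ} (hm : 1 ≤ m) : u m + a m + d m ≤ 1 := by
  have e : u m + a m + d m = Ex (fun _ => (1/2 : ℝ)) (boxE m)
      (fun F => ind (U m ↑F) + ind (A4 (-m) m (-m) m e1 ↑F) + ind (D m ↑F)) := by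
    unfold u a d PQ Pr
    rw [Ex_add, Ex_add]
  rw [e]
  apply Ex_le_of_le okh
  intro F _
  by_cases h1 : D m ↑F
  · obtain ⟨h2, h3⟩ := hB m ↑F hm h1
    rw [ind_of h1, ind_not_of h2, ind_not_of h3]
    norm_num
  · rw [ind_not_of h1]
    by_cases h2 : U m ↑F
    · have h3 : ¬ A4 (-m) m (-m) m e1 ↑F := fun h => h.2.2 h2
      rw [ind_of h2, ind_not_of h3]
      norm_num
    · rw [ind_not_of h2]
      have := ind_le_one (A4 (-m) m (-m) m e1 ↑F)
      linarith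

theorem cover (hO : S_OR) {m : ℕ} (hm : 1 ≤ m) : 1 ≤ u m + arm (1/2) m + d m := by
  have h1 : Pr (fun _ : Edg => (1/2 : ℝ)) (boxE m) (fun F => (U m ↑F ∨ Arm m F) ∨ D m ↑F) = 1 := by
    apply Pr_true
    intro F _
    rcases hO m F hm with h | h | h
    · exact Or.inl (Or.inl h)
    · exact Or.inl (Or.inr h)
    · exact Or.inr h
  have h2 := Pr_or_le okh (boxE m) (fun F : Finset Edg => U m ↑F ∨ Arm m F) (fun F => D m ↑F)
  have h3 := Pr_or_le okh (boxE m) (fun F : Finset Edg => U m ↑F) (fun F => Arm m F)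
  have h4 : u m = Pr (fun _ : Edg => (1/2 : ℝ)) (boxE m) (fun F => U m ↑F) := rfl
  have h5 : d m = Pr (fun _ : Edg => (1/2 : ℝ)) (boxE m) (fun F => D m ↑F) := rfl
  have h6 : arm (1/2) m = Pr (fun _ : Edg => (1/2 : ℝ)) (boxE m) (fun F => Arm m F) := rfl
  rw [h1] at h2
  linarith

theorem arm_small {ε : ℝ} (hε : 0 < ε) (N : ℕ) : ∃ n, N ≤ n ∧ arm (1/2) n < ε := by
  by_contra hno
  push Not at hno
  have h1 : ∀ n, ε ≤ arm (hlf : ℝ) n := by
    intro n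
    have h2 : ε ≤ arm (1/2) (max N n) := hno _ (le_max_left _ _)
    have h3 : arm (1/2) (max N n) ≤ arm (1/2) n :=
      arm_anti (by norm_num) (by norm_num) (le_max_right _ _)
    exact h2.trans h3
  have h4 := le_theta hlf h1
  have h5 : theta hlf = 0 := theta_half_le (le_of_eq rfl)
  linarith

/-- the connections which leave the box -/
theorem gap (hO : S_OR) (hB : S_BLK) (hS : S_SYM) {m : ℕ} (ha : 0 < a (m + 2)) :
    ∃ n, m ≤ n ∧ a (m + 2) / 4 ≤ u n - u m := by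
  obtain ⟨h1, h2, h3⟩ := hS
  obtain ⟨n, hn, hn2⟩ := arm_small (half_pos ha) (m + 1)
  refine ⟨n + 2, by omega, ?_⟩
  have h4 := excl hB (m := m + 2) (by omega)
  have h5 := cover hO (m := n) (by omega)
  have h6 := h1 m
  have h7 := h3 m (m + 2) (by omega)
  have h8 := h2 n
  have h9 := h3 n (n + 2) (by omega)
  linarith

/-- all moments of order at least `5/4` are infinite -/
theorem main (hO : S_OR) (hB : S_BLK) (hS : S_SYM) (hL : S_LAW) (hG : S_GEO) (hI : S_INT)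
    {c : ℝ} (hc : 0 < c) (ha : ∀ m : ℕ, 1 ≤ m → c * (m : ℝ) ^ (-(5/4) : ℝ) ≤ a m) :
    (∃ c' : ℝ, 0 < c' ∧ ∀ m : ℕ, 1 ≤ m → c' * (m : ℝ) ^ (-(5/4) : ℝ) ≤
      (bondLaw hlf).real {ω | (openGraph ω).Reachable (0, 0) (1, 0) ∧
        m ≤ (openGraph ω).dist (0, 0) (1, 0)}) ∧
    ∀ s : ℝ, 5 / 4 ≤ s → ∫⁻ ω in {ω | (openGraph ω).Reachable (0, 0) (1, 0)},
      ((openGraph ω).dist (0, 0) (1, 0) : ENNReal) ^ s ∂(bondLaw hlf) = ⊤ := by
  classical
  set c' : ℝ := c * (3 : ℝ) ^ (-(5/4) : ℝ) / 8 with hc'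
  have hc'p : 0 < c' := by positivity
  have hcm : ∀ m : ℕ, 1 ≤ m → c' * (m : ℝ) ^ (-(5/4) : ℝ) ≤ a (m + 2) / 8 := by
    intro m hm
    have h1 := ha (m + 2) (by omega)
    have hm' : (1 : ℝ) ≤ m := by exact_mod_cast hm
    have h2 : (3 * (m : ℝ)) ^ (-(5/4) : ℝ) ≤ ((m + 2 : ℕ) : ℝ) ^ (-(5/4) : ℝ) := by
      apply Real.rpow_le_rpow_of_nonpos (by positivity) _ (by norm_num)
      push_cast; linarith
    rw [Real.mul_rpow (by norm_num) (by positivity)] at h2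
    have h3 : c * ((3 : ℝ) ^ (-(5/4) : ℝ) * (m : ℝ) ^ (-(5/4) : ℝ)) ≤ a (m + 2) :=
      (mul_le_mul_of_nonneg_left h2 hc.le).trans h1
    rw [hc']
    calc c * (3 : ℝ) ^ (-(5/4) : ℝ) / 8 * (m : ℝ) ^ (-(5/4) : ℝ)
        = c * ((3 : ℝ) ^ (-(5/4) : ℝ) * (m : ℝ) ^ (-(5/4) : ℝ)) / 8 := by ring
      _ ≤ _ := by linarith
  have hap : ∀ m : ℕ, 0 < a (m + 2) := by
    intro m
    have h1 := ha (m + 2) (by omega)
    have h2 : (0 : ℝ) < ((m + 2 : ℕ) : ℝ) ^ (-(5/4) : ℝ) := by positivity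
    exact lt_of_lt_of_le (mul_pos hc h2) h1
  choose n hn1 hn2 using fun m : ℕ => gap hO hB hS (hap m)
  set E : ℕ → Set (sqLattice.edgeSet → Bool) := fun m =>
    if 1 ≤ m then {ω | ω (toE e1) = false ∧ U (n m) (opn ω) ∧ ¬ U m (opn ω)} else ∅ with hE
  have hEm : ∀ m, 1 ≤ m → E m = {ω | ω (toE e1) = false ∧ U (n m) (opn ω) ∧ ¬ U m (opn ω)} :=
    fun m hm => by rw [hE]; exact if_pos hm
  have hE0 : ∀ m, ¬ 1 ≤ m → E m = ∅ := fun m hm => by rw [hE]; exact if_neg hm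
  have hmeas : ∀ m, MeasurableSet (E m) := by
    intro m
    by_cases hm : 1 ≤ m
    · rw [hEm m hm]; exact (hL m (n m) hm (hn1 m)).2
    · rw [hE0 m hm]; exact MeasurableSet.empty
  have hsub : ∀ m, E m ⊆ {ω | (openGraph ω).Reachable (0, 0) (1, 0) ∧
      m ≤ (openGraph ω).dist (0, 0) (1, 0)} := by
    intro m ω hω
    by_cases hm : 1 ≤ m
    · rw [hEm m hm] at hω
      obtain ⟨h1, h2, h3⟩ := hω
      have h4 : (openGraph ω).Reachable (0, 0) (1, 0) := by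
        rw [open_reach]
        exact Reach.mono (fun e he => he.1.1) h2
      exact ⟨h4, hG ω m h1 h4 h3⟩
    · rw [hE0 m hm] at hω
      exact absurd hω (Set.notMem_empty _)
  have hlow : ∀ m : ℕ, 1 ≤ m → c' * (m : ℝ) ^ (-(5/4) : ℝ) ≤ (bondLaw hlf).real (E m) := by
    intro m hm
    rw [hEm m hm]
    have h1 := (hL m (n m) hm (hn1 m)).1
    have h2 := hcm m hm
    have h3 := hn2 m
    linarith
  refine ⟨⟨c', hc'p, fun m hm => (hlow m hm).trans (measureReal_mono (hsub m))⟩, ?_⟩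
  intro s hs
  have h1 := hI (sqLattice.edgeSet → Bool) (bondLaw hlf)
    (Set.indicator {ω | (openGraph ω).Reachable (0, 0) (1, 0)}
      (fun ω => ((openGraph ω).dist (0, 0) (1, 0) : ENNReal) ^ s)) E c' s hc'p hs hmeas
    (by
      intro m ω hω
      obtain ⟨h2, h3⟩ := hsub m hω
      rw [Set.indicator_of_mem (show ω ∈ {ω | (openGraph ω).Reachable (0, 0) (1, 0)} from h2)]
      exact ENNReal.rpow_le_rpow (by exact_mod_cast h3) (by linarith)) hlow
  exact top_le_iff.1 (h1 ▸ lintegral_indicator_le _ _)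

end Pool.Agent.K1H72.CD
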