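import Pool.Agent.K1H72.CD.Low
import Pool.Agent.K1H72.CD.Asm
import Pool.Agent.K1H24.CD.Or
import Pool.Agent.K1H77.CD.Blk
import Pool.Agent.K1H1.CD.Law
import Pool.Agent.K1H83.CD.Int
import Pool.Agent.K1H90.CD.Cov
import Pool.Agent.K1H68.CD.Sym
import Pool.Agent.K1H33.CD.Geo

/-! All pieces of project CD. -/

set_option autoImplicit false

namespace Pool.Agent.K1H72.CD

open H974 H12S MeasureTheory

theorem all :
    (∃ c : ℝ, 0 < c ∧ ∀ m : ℕ, 1 ≤ m → c * (m : ℝ) ^ (-(5/4) : ℝ) ≤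
      (bondLaw hlf).real {ω | (openGraph ω).Reachable (0, 0) (1, 0) ∧
        m ≤ (openGraph ω).dist (0, 0) (1, 0)}) ∧
    ∀ s : ℝ, 5 / 4 ≤ s → ∫⁻ ω in {ω | (openGraph ω).Reachable (0, 0) (1, 0)},
      ((openGraph ω).dist (0, 0) (1, 0) : ENNReal) ^ s ∂(bondLaw hlf) = ⊤ := by
  obtain ⟨c, hc, ha⟩ := a_low
  exact main (Pool.Agent.K1H24.CD.t_OR Pool.Agent.K1H90.CD.t_COV) Pool.Agent.K1H77.CD.t_BLK
    Pool.Agent.K1H68.CD.t_SYM Pool.Agent.K1H1.CD.t_LAW Pool.Agent.K1H33.CD.t_GEO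
    Pool.Agent.K1H83.CD.t_INT hc ha

end Pool.Agent.K1H72.CD
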