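import Pool.Agent.H974R2.Lattice

/-! The planar duality lemma of `Pool.Agent.H342R3.Pin.BRI`, with light imports. -/

set_option autoImplicit false

namespace Pool.Agent.K1H72.CD

open H974 Finset

/-- indicator of the faces on the ray -/
def bri_b (f : Vtx) (x y : ℤ) : ZMod 2 := if f.2 = y ∧ x ≤ f.1 then 1 else 0

/-- potential of a dual path -/
def BriP (f f' : Vtx) (w : Vtx → ZMod 2) (N : Edg → ZMod 2) : Prop :=
  (∀ x y : ℤ, w (x, y) + w (x + 1, y) = N (x, y, true)) ∧
  ∀ x y : ℤ, w (x, y) + w (x, y + 1) = N (x, y, false) + bri_b f x y + bri_b f' x y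

theorem bri_two (z : ZMod 2) : z + z = 0 := by
  revert z; decide

open Classical in
theorem bri_step {f f' f'' : Vtx} {w : Vtx → ZMod 2} {N : Edg → ZMod 2} (h : BriP f f' w N)
    (g0 : Edg) (hg : (dsrc g0 = f' ∧ dtgt g0 = f'') ∨ (dsrc g0 = f'' ∧ dtgt g0 = f')) :
    ∃ w', BriP f f'' w' (fun g => N g + if g = g0 then 1 else 0) := by
  obtain ⟨h1, h2⟩ := h
  obtain ⟨x0, y0, c⟩ := g0
  cases c with
  | true =>
    refine ⟨fun v => w v + if v.2 = y0 ∧ v.1 ≤ x0 then 1 else 0, ?_, ?_⟩
    · intro x y
      have e1 : (if y = y0 ∧ x ≤ x0 then (1 : ZMod 2) else 0) + (if y = y0 ∧ x + 1 ≤ x0 then 1 else 0) =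
          if ((x, y, true) : Edg) = (x0, y0, true) then 1 else 0 := by
        simp only [Prod.mk.injEq, and_true]
        split_ifs <;> first | rfl | (exfalso; omega) | decide
      have e2 := h1 x y
      simp only
      linear_combination e1 + e2
    · intro x y
      have e1 : (if y = y0 ∧ x ≤ x0 then (1 : ZMod 2) else 0) + (if y + 1 = y0 ∧ x ≤ x0 then 1 else 0) =
          bri_b (x0, y0) x y + bri_b (x0, y0 - 1) x y := by
        unfold bri_b
        simp only
        split_ifs <;> first | rfl | (exfalso; omega) | decide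
      have e2 := h2 x y
      have e3 : bri_b f' x y + bri_b f'' x y = bri_b (x0, y0) x y + bri_b (x0, y0 - 1) x y := by
        rw [dsrc_true, dtgt_mk] at hg
        rcases hg with ⟨ha, hb⟩ | ⟨ha, hb⟩
        · rw [← ha, ← hb, add_comm]
        · rw [← ha, ← hb]
      have e4 := bri_two (bri_b f' x y)
      simp only [Prod.mk.injEq, Bool.false_eq_true, and_false, if_false]
      linear_combination e1 + e2 - e3 + e4
  | false =>
    refine ⟨w, ?_, ?_⟩
    · intro x y
      simp only [Prod.mk.injEq, Bool.true_eq_false, and_false, if_false, add_zero]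
      exact h1 x y
    · intro x y
      have e1 : bri_b (x0, y0) x y + bri_b (x0 - 1, y0) x y =
          if ((x, y, false) : Edg) = (x0, y0, false) then 1 else 0 := by
        unfold bri_b
        simp only [Prod.mk.injEq, and_true]
        split_ifs <;> first | rfl | (exfalso; omega) | decide
      have e2 := h2 x y
      have e3 : bri_b f' x y + bri_b f'' x y = bri_b (x0, y0) x y + bri_b (x0 - 1, y0) x y := by
        rw [dsrc_false, dtgt_mk] at hg
        rcases hg with ⟨ha, hb⟩ | ⟨ha, hb⟩
        · rw [← ha, ← hb, add_comm]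
        · rw [← ha, ← hb]
      have e4 := bri_two (bri_b f' x y)
      have e5 := bri_two (bri_b f'' x y)
      simp only
      linear_combination e2 + e3 + e1 - e5

open Classical in
theorem bri_path {G : Set Edg} {f f' : Vtx} (h : DReach G f f') :
    ∃ (w : Vtx → ZMod 2) (N : Edg → ZMod 2), (∀ g, g ∉ G → N g = 0) ∧ BriP f f' w N := by
  have h' : Relation.ReflTransGen (DAdj G) f f' := h
  clear h
  induction h' with
  | refl =>
    refine ⟨fun _ => 0, fun _ => 0, fun _ _ => rfl, fun x y => by simp, fun x y => ?_⟩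
    have := bri_two (bri_b f x y)
    simp only
    linear_combination -this
  | tail _ hb ih =>
    obtain ⟨w, N, hN, hP⟩ := ih
    obtain ⟨g0, hg0, hg⟩ := hb
    obtain ⟨w', hP'⟩ := bri_step hP g0 hg
    refine ⟨w', _, ?_, hP'⟩
    intro g hgG
    have : g ≠ g0 := fun h => hgG (h ▸ hg0)
    simp only [if_neg this, add_zero]
    exact hN g hgG

open Classical in
theorem t_BRI : ∀ (F : Set Edg) (e : Edg), e ∈ F → DReach Fᶜ (dsrc e) (dtgt e) →
    ¬ Reach (F \ {e}) (src e) (tgt e) := by
  intro F e he hd hr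
  obtain ⟨w, N, hN, hP⟩ := bri_path hd
  obtain ⟨w', h1, h2⟩ := bri_step (f'' := dsrc e) hP e (Or.inr ⟨rfl, rfl⟩)
  have key : ∀ g : Edg, w' (src g) + w' (tgt g) = N g + if g = e then 1 else 0 := by
    rintro ⟨x, y, c⟩
    cases c with
    | true =>
      rw [src_mk, tgt_true]
      exact h1 x y
    | false =>
      rw [src_mk, tgt_false]
      have := h2 x y
      have e1 := bri_two (bri_b (dsrc e) x y)
      linear_combination this + e1
  have hN0 : ∀ g ∈ F, N g = 0 := fun g hg => hN g (fun h => h hg)
  have hconst : ∀ u v, Reach (F \ {e}) u v → w' u = w' v := by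
    intro u v huv
    have h' : Relation.ReflTransGen (Adj (F \ {e})) u v := huv
    clear huv
    induction h' with
    | refl => rfl
    | tail _ hb ih =>
      obtain ⟨g, ⟨hg1, hg2⟩, hg⟩ := hb
      have h3 := key g
      have hg3 : g ≠ e := hg2
      rw [hN0 g hg1, if_neg hg3, add_zero] at h3
      have h4 : w' (src g) = w' (tgt g) := by
        have := bri_two (w' (tgt g))
        linear_combination h3 - this
      rw [ih]
      rcases hg with ⟨ha, hb⟩ | ⟨ha, hb⟩
      · rw [← ha, ← hb, h4]
      · rw [← ha, ← hb, h4]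
  have h3 := key e
  rw [hN0 e he, if_pos rfl, zero_add, hconst _ _ hr, bri_two] at h3
  exact absurd h3 (by decide)

end Pool.Agent.K1H72.CD
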