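import Pool.Agent.K1H72.CD.Swap
import Pool.Agent.H988R5.Low

/-! The lower bound for the four-arm probability of one edge. -/

set_option autoImplicit false

namespace Pool.Agent.K1H72.CD

open H974 H12S

theorem a_low : ∃ c : ℝ, 0 < c ∧ ∀ m : ℕ, 1 ≤ m → c * (m : ℝ) ^ (-(5/4) : ℝ) ≤ a m := by
  obtain ⟨c, hc, h⟩ := Pool.Agent.H988R5.a4_low
  refine ⟨c / 2, half_pos hc, fun m hm => ?_⟩
  have h1 := h m hm
  rw [a4_eq] at h1
  linarith

end Pool.Agent.K1H72.CD
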