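import Pool.Agent.H974R2.Infinite
import Pool.Agent.H12R2.Sep.Defs
import Pool.Agent.K1H72.CD.Bri

/-! Interface of project CD (MP_a739c9_pr): moments of the chemical distance between neighbours in
critical bond percolation on the square lattice. -/

set_option autoImplicit false

namespace Pool.Agent.K1H72.CD

open H974 H12S Finset MeasureTheory

/-- the edge between `(0,0)` and `(1,0)` -/
def e1 : Edg := (0, 0, true)

/-- the ends of `e1` are connected by open edges of the box other than `e1` -/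
def U (m : ℕ) (F : Set Edg) : Prop := Reach ((F ∩ ↑(boxE m)) \ {e1}) (0, 0) (1, 0)

/-- the two faces next to `e1` are connected by a dual path through closed edges of the box other
than `e1` -/
def D (m : ℕ) (F : Set Edg) : Prop := DReach ((↑(boxE m) \ F) \ {e1}) (0, -1) (0, 0)

noncomputable def u (m : ℕ) : ℝ := PQ (1/2) (boxE m) (fun F => U m ↑F)

noncomputable def d (m : ℕ) : ℝ := PQ (1/2) (boxE m) (fun F => D m ↑F)

/-- four arms from `e1` -/
noncomputable def a (m : ℕ) : ℝ := PQ (1/2) (boxE m) (fun F => A4 (-m) m (-m) m e1 ↑F)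

/-- the edge boundary of a finite set of vertices which separates the ends of `e1` contains a dual
path around -/
def S_COV : Prop := ∀ (H : Set Edg) (C : Set Vtx), C.Finite → (0, 0) ∈ C → (1, 0) ∉ C →
  (∀ g : Edg, g ≠ e1 → ¬ (src g ∈ C ↔ tgt g ∈ C) → g ∈ H) → DReach (H \ {e1}) (0, -1) (0, 0)

/-- coverage -/
def S_OR : Prop := ∀ (m : ℕ) (F : Finset Edg), 1 ≤ m → U m ↑F ∨ Arm m F ∨ D m ↑F

/-- blocking -/
def S_BLK : Prop := ∀ (m : ℕ) (F : Set Edg), 1 ≤ m → D m F →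
  ¬ U m F ∧ ¬ A4 (-m) m (-m) m e1 F

/-- symmetry and monotonicity -/
def S_SYM : Prop := (∀ m : ℕ, u m ≤ d (m + 2)) ∧ (∀ m : ℕ, d m ≤ u (m + 2)) ∧
  ∀ m n : ℕ, m ≤ n → u m ≤ u n

/-- the law of the infinite configuration -/
def S_LAW : Prop := ∀ m n : ℕ, 1 ≤ m → m ≤ n → (u n - u m) / 2 ≤
  (bondLaw hlf).real {ω | ω (toE e1) = false ∧ U n (opn ω) ∧ ¬ U m (opn ω)} ∧
  MeasurableSet {ω | ω (toE e1) = false ∧ U n (opn ω) ∧ ¬ U m (opn ω)}

/-- long connections -/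
def S_GEO : Prop := ∀ (ω : sqLattice.edgeSet → Bool) (m : ℕ), ω (toE e1) = false →
  (openGraph ω).Reachable (0, 0) (1, 0) → ¬ U m (opn ω) → m ≤ (openGraph ω).dist (0, 0) (1, 0)

/-- infinite moments -/
def S_INT : Prop := ∀ (Ω : Type) [MeasurableSpace Ω] (μ : Measure Ω) [IsProbabilityMeasure μ]
  (f : Ω → ENNReal) (E : ℕ → Set Ω) (c s : ℝ), 0 < c → 5 / 4 ≤ s → (∀ m, MeasurableSet (E m)) →
  (∀ m, ∀ ω ∈ E m, (m : ENNReal) ^ s ≤ f ω) →
  (∀ m : ℕ, 1 ≤ m → c * (m : ℝ) ^ (-(5 / 4) : ℝ) ≤ μ.real (E m)) → ∫⁻ ω, f ω ∂μ = ⊤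

end Pool.Agent.K1H72.CD
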