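import Pool.Agent.K1H72.CD.Stm

/-! The four-arm probabilities of the two edges at the origin agree (after
`Pool.Agent.H988R6.Four`, with light imports). -/

set_option autoImplicit false

namespace Pool.Agent.K1H72.CD

open H974 H12S Finset MeasureTheory

theorem swap (k : ℕ) :
    PQ (1/2) (boxE k) (fun F => A4 (-k) k (-k) k (e0 true) ↑F) =
      PQ (1/2) (boxE k) (fun F => A4 (-k) k (-k) k (e0 false) ↑F) := by
  have h1 : boxE k = tps.mp (boxE k) := by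
    unfold boxE
    rw [tps_RE]
  have e2 : PQ (1/2) (boxE k) (fun F => A4 (-k) k (-k) k (e0 true) ↑F) =
      PQ (1/2) (boxE k) (fun F => A4 (-k) k (-k) k (e0 true) ↑(tps.mp F)) := by
    conv_lhs => rw [h1]
    exact LSym.pr _ _ _ _
  rw [e2]
  apply Pr_congr
  intro F _
  rw [LSym.coe_mp]
  have e3 : tps.φ (e0 false) = e0 true := by simp [e0]
  have e4 : (↑(RE (-(k:ℤ)) k (-k) k) : Set Edg) = tps.φ '' ↑(RE (-(k:ℤ)) k (-k) k) := by
    rw [← LSym.coe_mp, tps_RE]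
  have e5 : ((tps.φ '' ↑F) ∩ ↑(RE (-(k:ℤ)) k (-k) k)) \ {e0 true} =
      tps.φ '' ((↑F ∩ ↑(RE (-(k:ℤ)) k (-k) k)) \ {e0 false}) := by
    rw [Set.image_sdiff tps.φ.injective, Set.image_inter tps.φ.injective, Set.image_singleton,
      e3, ← e4]
  have s1 : src (e0 true) = tps.ψ (src (e0 false)) := rfl
  have s2 : tgt (e0 true) = tps.ψ (tgt (e0 false)) := by
    simp [e0, tgt]
  have bd : ∀ w, w ∈ bdR (-(k:ℤ)) k (-k) k ↔ tps.ψ w ∈ bdR (-(k:ℤ)) k (-k) k := by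
    rintro ⟨x, y⟩
    rw [tps_ψ]
    show (inR (-(k:ℤ)) k (-k) k (x, y) ∧ (x = -(k:ℤ) ∨ x = k ∨ y = -(k:ℤ) ∨ y = k)) ↔
      (inR (-(k:ℤ)) k (-k) k (y, x) ∧ (y = -(k:ℤ) ∨ y = k ∨ x = -(k:ℤ) ∨ x = k))
    unfold inR
    simp only
    omega
  unfold A4
  rw [e5, s1, s2, LSym.reach_iff]
  have key : ∀ u, (∃ w ∈ bdR (-(k:ℤ)) k (-k) k,
      Reach (tps.φ '' ((↑F ∩ ↑(RE (-(k:ℤ)) k (-k) k)) \ {e0 false})) (tps.ψ u) w) ↔
      ∃ w ∈ bdR (-(k:ℤ)) k (-k) k, Reach ((↑F ∩ ↑(RE (-(k:ℤ)) k (-k) k)) \ {e0 false}) u w := by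
    intro u
    constructor
    · rintro ⟨w, h1, h2⟩
      refine ⟨tps.ψ.symm w, ?_, ?_⟩
      · rw [bd, Equiv.apply_symm_apply]; exact h1
      · rw [← LSym.reach_iff tps, Equiv.apply_symm_apply]; exact h2
    · rintro ⟨w, h1, h2⟩
      exact ⟨tps.ψ w, (bd w).mp h1, (LSym.reach_iff tps).mpr h2⟩
  rw [key, key]

theorem a4_eq (k : ℕ) : a4 (1/2) k = 2 * a k := by
  have h1 : a k = PQ (1/2) (boxE k) (fun F => A4 (-k) k (-k) k (e0 true) ↑F) := rfl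
  have h2 : a4 (1/2) k = PQ (1/2) (boxE k) (fun F => A4 (-k) k (-k) k (e0 true) ↑F) +
    PQ (1/2) (boxE k) (fun F => A4 (-k) k (-k) k (e0 false) ↑F) := rfl
  rw [h2, ← swap, ← h1]
  ring

end Pool.Agent.K1H72.CD
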